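import Mathlib

/-!
# Circle packings of the hexagonal complex: definitions
-/

set_option autoImplicit false

namespace Pool.Agent.TH633.Doyle

open Real

/-- The six lattice directions of the hexagonal complex in counterclockwise order; the pair
`(n, m)` stands for the lattice point `n + m ω` with `ω = exp (i π / 3)`. The neighbours of a
vertex `v` are `v + dir k`, and the faces at `v` are `v, v + dir k, v + dir (k + 1)`. -/
def dir : ZMod 6 → ℤ × ℤ := ![(1, 0), (0, 1), (-1, 1), (-1, 0), (0, -1), (1, -1)]

/-- The angle at the vertex of label `r` in the Euclidean triangle with side lengths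
`r + a`, `r + b`, `a + b` (the angle opposite to the side `a + b`), by the law of cosines. -/
noncomputable def ang (r a b : ℝ) : ℝ :=
  arccos (((r + a) ^ 2 + (r + b) ^ 2 - (a + b) ^ 2) / (2 * (r + a) * (r + b)))

/-- The angle sum of the label `R` at the vertex `v`. -/
noncomputable def angleSum (R : ℤ × ℤ → ℝ) (v : ℤ × ℤ) : ℝ :=
  ∑ k : ZMod 6, ang (R v) (R (v + dir k)) (R (v + dir (k + 1)))

/-- `R` is a packing label: positive, with all angle sums equal to `2π`. -/
def IsPackingLabel (R : ℤ × ℤ → ℝ) : Prop :=
  (∀ v, 0 < R v) ∧ ∀ v, angleSum R v = 2 * π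

/-- The circles with centres `z v` and radii `R v` form a circle packing for the hexagonal
complex with label `R`: `R` is a packing label, circles of adjacent vertices are externally
tangent, and every face is realised by a positively oriented triple. -/
def IsCirclePacking (R : ℤ × ℤ → ℝ) (z : ℤ × ℤ → ℂ) : Prop :=
  IsPackingLabel R ∧
  (∀ v k, dist (z v) (z (v + dir k)) = R v + R (v + dir k)) ∧
  ∀ v k, 0 < ((z (v + dir (k + 1)) - z v) * (starRingEnd ℂ) (z (v + dir k) - z v)).im

/-- The vertices of the flower at `v`: the vertex `v` and its six neighbours. -/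
def flower (v : ℤ × ℤ) : Set (ℤ × ℤ) := {w | w = v ∨ ∃ k, w = v + dir k}

/-- The packing is locally univalent: for every vertex `v`, the seven circles of the flower
at `v` have pairwise disjoint interiors. -/
def IsLocallyUnivalent (R : ℤ × ℤ → ℝ) (z : ℤ × ℤ → ℂ) : Prop :=
  ∀ v, ∀ x ∈ flower v, ∀ y ∈ flower v, x ≠ y →
    Disjoint (Metric.ball (z x) (R x)) (Metric.ball (z y) (R y))

end Pool.Agent.TH633.Doyle
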