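import Pool.Agent.TH633.Doyle.Defs

/-!
# Liouville theorem for bounded conductances on the triangular lattice
-/

set_option autoImplicit false

namespace Pool.Agent.TH633.Doyle

open Real Finset Filter Topology

/-- The sup norm of a lattice point. -/
def nrm (v : ℤ × ℤ) : ℕ := max v.1.natAbs v.2.natAbs

/-- Harmonic numbers. -/
noncomputable def H (n : ℕ) : ℝ := ∑ i ∈ range n, (1 / ((i : ℝ) + 1))

theorem H_succ (n : ℕ) : H (n + 1) = H n + 1 / ((n : ℝ) + 1) := by
  unfold H; rw [sum_range_succ]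

theorem H_nonneg (n : ℕ) : 0 ≤ H n := sum_nonneg fun i _ => by positivity

theorem H_pos {n : ℕ} (hn : 1 ≤ n) : 1 ≤ H n := by
  obtain ⟨m, rfl⟩ : ∃ m, n = m + 1 := ⟨n - 1, by omega⟩
  induction m with
  | zero => simp [H]
  | succ k ih =>
    rw [H_succ]
    have := ih (by omega)
    have h2 : (0 : ℝ) ≤ 1 / (((k + 1 : ℕ) : ℝ) + 1) := by positivity
    linarith

theorem H_tendsto : Tendsto H atTop atTop := Real.tendsto_sum_range_one_div_nat_succ_atTop

/-- The logarithmic cutoff function. -/
noncomputable def cut (N : ℕ) (v : ℤ × ℤ) : ℝ := 1 - H (min (nrm v) N) / H N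

theorem cut_zero {N : ℕ} (hN : 1 ≤ N) {v : ℤ × ℤ} (hv : N ≤ nrm v) : cut N v = 0 := by
  unfold cut
  rw [min_eq_right hv, div_self (by linarith [H_pos hN]), sub_self]

theorem cut_tendsto (v : ℤ × ℤ) : Tendsto (fun N => cut N v) atTop (𝓝 1) := by
  have h1 : Tendsto (fun N => 1 - H (nrm v) / H N) atTop (𝓝 (1 - 0)) :=
    tendsto_const_nhds.sub (H_tendsto.const_div_atTop _)
  rw [sub_zero] at h1
  refine h1.congr' ?_
  filter_upwards [eventually_ge_atTop (nrm v)] with N hN
  unfold cut
  rw [min_eq_left hN]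

theorem nrm_add_dir (v : ℤ × ℤ) (k : ZMod 6) : nrm (v + dir k) ≤ nrm v + 1 ∧
    nrm v ≤ nrm (v + dir k) + 1 := by
  obtain ⟨x, y⟩ := v
  fin_cases k <;> simp [dir, nrm] <;> omega

/-- The squared difference of the cutoff along an edge. -/
theorem cut_diff {N : ℕ} (hN : 1 ≤ N) (v : ℤ × ℤ) (k : ZMod 6) :
    (cut N (v + dir k) - cut N v) ^ 2 ≤
      if nrm v ≤ N then 4 / ((nrm v : ℝ) + 1) ^ 2 / H N ^ 2 else 0 := by
  have hH : 0 < H N := by linarith [H_pos hN]
  obtain ⟨h1, h2⟩ := nrm_add_dir v k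
  set j := nrm v with hj
  set i := nrm (v + dir k) with hi
  have e : (cut N (v + dir k) - cut N v) ^ 2 = (H (min j N) - H (min i N)) ^ 2 / H N ^ 2 := by
    unfold cut
    rw [← hj, ← hi]
    field_simp
    ring
  rw [e]
  have hc : i = j + 1 ∨ i = j ∨ j = i + 1 := by omega
  have jp : (0 : ℝ) < (j : ℝ) + 1 := by positivity
  split_ifs with hjN
  · refine div_le_div_of_nonneg_right ?_ (by positivity)
    rw [show (4 : ℝ) / ((j : ℝ) + 1) ^ 2 = (2 / ((j : ℝ) + 1)) ^ 2 by rw [div_pow]; norm_num]
    apply sq_le_sq'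
    · rcases hc with h | h | h
      · rw [h]
        rcases Nat.lt_or_ge j N with hlt | hge
        · rw [min_eq_left (by omega), min_eq_left (by omega), H_succ]
          have : (1 : ℝ) / ((j : ℝ) + 1) ≤ 2 / ((j : ℝ) + 1) := by gcongr; norm_num
          linarith
        · rw [min_eq_right (by omega), min_eq_right (by omega), sub_self]
          have : (0 : ℝ) < 2 / ((j : ℝ) + 1) := by positivity
          linarith
      · rw [h, sub_self]
        have : (0 : ℝ) < 2 / ((j : ℝ) + 1) := by positivity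
        linarith
      · rw [h, min_eq_left (by omega), min_eq_left (by omega), H_succ]
        have : (0 : ℝ) < 2 / (((i + 1 : ℕ) : ℝ) + 1) := by positivity
        have h3 : (0 : ℝ) < 1 / ((i : ℝ) + 1) := by positivity
        linarith
    · rcases hc with h | h | h
      · rw [h]
        rcases Nat.lt_or_ge j N with hlt | hge
        · rw [min_eq_left (by omega), min_eq_left (by omega), H_succ]
          have : (0 : ℝ) < 1 / ((j : ℝ) + 1) := by positivity
          have : (0 : ℝ) < 2 / ((j : ℝ) + 1) := by positivity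
          linarith
        · rw [min_eq_right (by omega), min_eq_right (by omega), sub_self]
          positivity
      · rw [h, sub_self]
        positivity
      · rw [h, min_eq_left (by omega), min_eq_left (by omega), H_succ]
        have h3 : (1 : ℝ) / ((i : ℝ) + 1) ≤ 2 / (((i + 1 : ℕ) : ℝ) + 1) := by
          rw [div_le_div_iff₀ (by positivity) (by positivity)]
          push_cast
          have : (0 : ℝ) ≤ i := by positivity
          linarith
        linarith
  · have : min j N = min i N := by omega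
    rw [this, sub_self]
    simp

theorem summable_of_nrm {F : ℤ × ℤ → ℝ} (N : ℕ) (h : ∀ v, N < nrm v → F v = 0) :
    Summable F := by
  apply summable_of_ne_finset_zero (s := (Finset.Icc (-(N : ℤ)) N) ×ˢ (Finset.Icc (-(N : ℤ)) N))
  intro v hv
  apply h
  by_contra hc
  apply hv
  simp only [Finset.mem_product, Finset.mem_Icc]
  unfold nrm at hc
  omega

/-- Energy of the cutoff in one direction. -/
theorem energy {N : ℕ} (hN : 1 ≤ N) (k : ZMod 6) :
    ∑' v, (cut N (v + dir k) - cut N v) ^ 2 ≤ 64 / H N := by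
  have hH1 := H_pos hN
  have hH : 0 < H N := by linarith
  set G : ℤ × ℤ → ℝ := fun v => if nrm v ≤ N then 4 / ((nrm v : ℝ) + 1) ^ 2 / H N ^ 2 else 0
    with hG
  have hGs : Summable G := summable_of_nrm N fun v hv => by
    simp only [hG]; rw [if_neg (by omega)]
  have hFs : Summable fun v => (cut N (v + dir k) - cut N v) ^ 2 := by
    refine Summable.of_nonneg_of_le (fun v => sq_nonneg _) (fun v => cut_diff hN v k) hGs
  refine (hFs.tsum_le_tsum (fun v => cut_diff hN v k) hGs).trans ?_
  -- sum G over boxes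
  have e1 : ∑' v, G v = ∑ j ∈ range (N + 1), ∑ v ∈ Finset.box (α := ℤ × ℤ) j, G v := by
    rw [← Finset.sum_biUnion]
    · apply tsum_eq_sum
      intro v hv
      simp only [hG]
      rw [if_neg]
      intro hle
      apply hv
      rw [Finset.mem_biUnion]
      refine ⟨nrm v, by rw [Finset.mem_range]; omega, ?_⟩
      rw [Int.mem_box]
      rfl
    · intro i _ j _ hij
      rw [Function.onFun, Finset.disjoint_left]
      intro v hv hv'
      rw [Int.mem_box] at hv hv'
      exact hij (hv.symm.trans hv')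
  rw [e1]
  have e2 : ∀ j ∈ range (N + 1), ∑ v ∈ Finset.box (α := ℤ × ℤ) j, G v
      ≤ 32 / ((j : ℝ) + 1) / H N ^ 2 := by
    intro j hj
    rw [Finset.mem_range] at hj
    have : ∀ v ∈ Finset.box (α := ℤ × ℤ) j, G v = 4 / ((j : ℝ) + 1) ^ 2 / H N ^ 2 := by
      intro v hv
      rw [Int.mem_box] at hv
      have : nrm v = j := hv
      simp only [hG]
      rw [this, if_pos (by omega)]
    rw [Finset.sum_congr rfl this, Finset.sum_const, nsmul_eq_mul]
    have hcard : ((Finset.box (α := ℤ × ℤ) j).card : ℝ) ≤ 8 * ((j : ℝ) + 1) := by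
      rcases Nat.eq_zero_or_pos j with h0 | h0
      · subst h0
        simp
      · rw [Int.card_box (by omega)]
        push_cast
        linarith
    have jp : (0 : ℝ) < (j : ℝ) + 1 := by positivity
    calc ((Finset.box (α := ℤ × ℤ) j).card : ℝ) * (4 / ((j : ℝ) + 1) ^ 2 / H N ^ 2)
        ≤ (8 * ((j : ℝ) + 1)) * (4 / ((j : ℝ) + 1) ^ 2 / H N ^ 2) := by gcongr
      _ = 32 / ((j : ℝ) + 1) / H N ^ 2 := by field_simp; norm_num
  refine (Finset.sum_le_sum e2).trans ?_
  have e3 : ∑ j ∈ range (N + 1), 32 / ((j : ℝ) + 1) / H N ^ 2 = 32 * H (N + 1) / H N ^ 2 := by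
    unfold H
    rw [Finset.mul_sum, Finset.sum_div]
    apply Finset.sum_congr rfl
    intro j _
    ring
  rw [e3, H_succ]
  have h4 : 1 / ((N : ℝ) + 1) ≤ H N := by
    have : 1 / ((N : ℝ) + 1) ≤ 1 := by
      rw [div_le_one (by positivity)]
      have : (0 : ℝ) ≤ N := by positivity
      linarith
    linarith
  rw [div_le_div_iff₀ (by positivity) hH]
  nlinarith [mul_le_mul_of_nonneg_left h4 hH.le, sq_nonneg (H N)]

theorem dir_add_three (k : ZMod 6) : dir (k + 3) = -dir k := by
  fin_cases k <;> decide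

theorem sum_six (f : ZMod 6 → ℝ) :
    ∑ k, f k = (f 0 + f 3) + (f 1 + f 4) + (f 2 + f 5) := by
  have h : (Finset.univ : Finset (ZMod 6)) = {0, 1, 2, 3, 4, 5} := by decide
  rw [h, Finset.sum_insert (by decide), Finset.sum_insert (by decide),
    Finset.sum_insert (by decide), Finset.sum_insert (by decide), Finset.sum_insert (by decide),
    Finset.sum_singleton]
  ring

/-- Summation by parts in one direction. -/
theorem parts (a : ℤ × ℤ → ZMod 6 → ℝ) (w ψ : ℤ × ℤ → ℝ) (N : ℕ)
    (hψ : ∀ v, N < nrm v → ψ v = 0)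
    (hsym : ∀ v k, a (v + dir k) (k + 3) = a v k) (k : ZMod 6) :
    ∑' v, (ψ v * (a v k * (w (v + dir k) - w v)) +
        ψ v * (a v (k + 3) * (w (v + dir (k + 3)) - w v))) =
      -∑' v, a v k * ((w (v + dir k) - w v) * (ψ (v + dir k) - ψ v)) := by
  have hψ' : ∀ v, N + 1 < nrm v → ψ (v + dir k) = 0 := by
    intro v hv
    apply hψ
    have := (nrm_add_dir v k).2
    omega
  have s1 : Summable fun v => ψ v * (a v k * (w (v + dir k) - w v)) :=
    summable_of_nrm N fun v hv => by rw [hψ v hv, zero_mul]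
  have s2 : Summable fun v => ψ v * (a v (k + 3) * (w (v + dir (k + 3)) - w v)) :=
    summable_of_nrm N fun v hv => by rw [hψ v hv, zero_mul]
  have s3 : Summable fun v => ψ (v + dir k) * (a v k * (w v - w (v + dir k))) :=
    summable_of_nrm (N + 1) fun v hv => by rw [hψ' v hv, zero_mul]
  rw [s1.tsum_add s2]
  have e : ∑' v, ψ v * (a v (k + 3) * (w (v + dir (k + 3)) - w v)) =
      ∑' v, ψ (v + dir k) * (a v k * (w v - w (v + dir k))) := by
    rw [← (Equiv.addRight (dir k)).tsum_eq]
    apply tsum_congr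
    intro v
    simp only [Equiv.coe_addRight]
    rw [hsym v k, dir_add_three, add_neg_cancel_right]
  rw [e, ← s1.tsum_add s3, ← tsum_neg]
  apply tsum_congr
  intro v
  ring

/-- **Liouville theorem** for bounded functions which are harmonic with respect to symmetric
positive conductances bounded by `1` on the triangular lattice. -/
theorem liouville (a : ℤ × ℤ → ZMod 6 → ℝ) (w : ℤ × ℤ → ℝ) (M : ℝ)
    (ha0 : ∀ v k, 0 < a v k) (ha1 : ∀ v k, a v k ≤ 1)
    (hsym : ∀ v k, a (v + dir k) (k + 3) = a v k)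
    (hw : ∀ v, |w v| ≤ M)
    (hharm : ∀ v, ∑ k : ZMod 6, a v k * (w (v + dir k) - w v) = 0) :
    ∀ v k, w (v + dir k) = w v := by
  have hM : 0 ≤ M := (abs_nonneg _).trans (hw 0)
  -- the Caccioppoli inequality
  have key : ∀ N : ℕ, 1 ≤ N → ∀ v k,
      a v k * (cut N (v + dir k) * w (v + dir k) - cut N v * w v) ^ 2 ≤
        M ^ 2 * (192 / H N) := by
    intro N hN
    set φ := cut N with hφ
    have hφ0 : ∀ v, N < nrm v → φ v = 0 := fun v hv => cut_zero hN hv.le
    have hφ0' : ∀ v k, N + 1 < nrm v → φ (v + dir k) = 0 := by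
      intro v k hv
      apply hφ0
      have := (nrm_add_dir v k).2
      omega
    set ψ : ℤ × ℤ → ℝ := fun v => φ v ^ 2 * w v with hψ
    have hψ0 : ∀ v, N < nrm v → ψ v = 0 := fun v hv => by
      simp only [hψ]; rw [hφ0 v hv]; ring
    -- total sum zero
    have tot : ∑' v, ψ v * ∑ k : ZMod 6, a v k * (w (v + dir k) - w v) = 0 := by
      simp only [hharm, mul_zero, tsum_zero]
    have sm : ∀ k : ZMod 6, Summable fun v => (ψ v * (a v k * (w (v + dir k) - w v)) +
        ψ v * (a v (k + 3) * (w (v + dir (k + 3)) - w v))) := fun k =>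
      summable_of_nrm N fun v hv => by rw [hψ0 v hv]; ring
    have e1 : ∀ v, ψ v * ∑ k : ZMod 6, a v k * (w (v + dir k) - w v) =
        (ψ v * (a v 0 * (w (v + dir 0) - w v)) +
          ψ v * (a v (0 + 3) * (w (v + dir (0 + 3)) - w v))) +
        (ψ v * (a v 1 * (w (v + dir 1) - w v)) +
          ψ v * (a v (1 + 3) * (w (v + dir (1 + 3)) - w v))) +
        (ψ v * (a v 2 * (w (v + dir 2) - w v)) +
          ψ v * (a v (2 + 3) * (w (v + dir (2 + 3)) - w v))) := by
      intro v
      rw [sum_six]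
      have h3 : (0 + 3 : ZMod 6) = 3 := by decide
      have h4 : (1 + 3 : ZMod 6) = 4 := by decide
      have h5 : (2 + 3 : ZMod 6) = 5 := by decide
      rw [h3, h4, h5]
      ring
    rw [tsum_congr e1, ((sm 0).add (sm 1)).tsum_add (sm 2), (sm 0).tsum_add (sm 1),
      parts a w ψ N hψ0 hsym, parts a w ψ N hψ0 hsym, parts a w ψ N hψ0 hsym] at tot
    -- rewrite each term
    have sq : ∀ k : ZMod 6, Summable fun v =>
        a v k * (φ (v + dir k) * w (v + dir k) - φ v * w v) ^ 2 := fun k =>
      summable_of_nrm (N + 1) fun v hv => by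
        rw [hφ0 v (by omega), hφ0' v k hv]; ring
    have sr : ∀ k : ZMod 6, Summable fun v =>
        a v k * (w v * w (v + dir k) * (φ (v + dir k) - φ v) ^ 2) := fun k =>
      summable_of_nrm (N + 1) fun v hv => by
        rw [hφ0 v (by omega), hφ0' v k hv]; ring
    have sE : ∀ k : ZMod 6, Summable fun v => (φ (v + dir k) - φ v) ^ 2 := fun k =>
      summable_of_nrm (N + 1) fun v hv => by
        rw [hφ0 v (by omega), hφ0' v k hv]; ring
    have e2 : ∀ k : ZMod 6, ∑' v, a v k * ((w (v + dir k) - w v) * (ψ (v + dir k) - ψ v)) =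
        ∑' v, a v k * (φ (v + dir k) * w (v + dir k) - φ v * w v) ^ 2 -
        ∑' v, a v k * (w v * w (v + dir k) * (φ (v + dir k) - φ v) ^ 2) := by
      intro k
      rw [← (sq k).tsum_sub (sr k)]
      apply tsum_congr
      intro v
      simp only [hψ]
      ring
    have e3 : ∀ k : ZMod 6, ∑' v, a v k * (w v * w (v + dir k) * (φ (v + dir k) - φ v) ^ 2) ≤
        M ^ 2 * (64 / H N) := by
      intro k
      calc ∑' v, a v k * (w v * w (v + dir k) * (φ (v + dir k) - φ v) ^ 2)
          ≤ ∑' v, M ^ 2 * (φ (v + dir k) - φ v) ^ 2 := by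
            refine (sr k).tsum_le_tsum (fun v => ?_) ((sE k).mul_left _)
            have h1 : w v * w (v + dir k) ≤ M ^ 2 := by
              calc w v * w (v + dir k) ≤ |w v * w (v + dir k)| := le_abs_self _
                _ = |w v| * |w (v + dir k)| := abs_mul _ _
                _ ≤ M * M := mul_le_mul (hw _) (hw _) (abs_nonneg _) hM
                _ = M ^ 2 := by ring
            have h2 := sq_nonneg (φ (v + dir k) - φ v)
            have h3 : w v * w (v + dir k) * (φ (v + dir k) - φ v) ^ 2 ≤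
                M ^ 2 * (φ (v + dir k) - φ v) ^ 2 := mul_le_mul_of_nonneg_right h1 h2
            have h4 : 0 ≤ M ^ 2 * (φ (v + dir k) - φ v) ^ 2 := by positivity
            calc a v k * (w v * w (v + dir k) * (φ (v + dir k) - φ v) ^ 2)
                ≤ a v k * (M ^ 2 * (φ (v + dir k) - φ v) ^ 2) :=
                  mul_le_mul_of_nonneg_left h3 (ha0 v k).le
              _ ≤ 1 * (M ^ 2 * (φ (v + dir k) - φ v) ^ 2) :=
                  mul_le_mul_of_nonneg_right (ha1 v k) h4
              _ = _ := one_mul _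
        _ = M ^ 2 * ∑' v, (φ (v + dir k) - φ v) ^ 2 := tsum_mul_left
        _ ≤ M ^ 2 * (64 / H N) := mul_le_mul_of_nonneg_left (energy hN k) (by positivity)
    rw [e2, e2, e2] at tot
    have hsum : ∑' v, a v 0 * (φ (v + dir 0) * w (v + dir 0) - φ v * w v) ^ 2 +
        ∑' v, a v 1 * (φ (v + dir 1) * w (v + dir 1) - φ v * w v) ^ 2 +
        ∑' v, a v 2 * (φ (v + dir 2) * w (v + dir 2) - φ v * w v) ^ 2 ≤
        M ^ 2 * (192 / H N) := by
      have h0 := e3 0
      have h1 := e3 1
      have h2 := e3 2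
      have : M ^ 2 * (192 / H N) = M ^ 2 * (64 / H N) + M ^ 2 * (64 / H N) +
          M ^ 2 * (64 / H N) := by ring
      linarith
    have nn : ∀ (k : ZMod 6) (v : ℤ × ℤ),
        0 ≤ a v k * (φ (v + dir k) * w (v + dir k) - φ v * w v) ^ 2 :=
      fun k v => mul_nonneg (ha0 v k).le (sq_nonneg _)
    have n0 : ∀ k : ZMod 6, 0 ≤ ∑' v, a v k *
        (φ (v + dir k) * w (v + dir k) - φ v * w v) ^ 2 := fun k => tsum_nonneg (nn k)
    have one : ∀ (k : ZMod 6) (v : ℤ × ℤ), a v k *
        (φ (v + dir k) * w (v + dir k) - φ v * w v) ^ 2 ≤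
        ∑' v, a v k * (φ (v + dir k) * w (v + dir k) - φ v * w v) ^ 2 :=
      fun k v => (sq k).le_tsum v (fun j _ => nn k j)
    have base : ∀ (k : ZMod 6), k = 0 ∨ k = 1 ∨ k = 2 → ∀ v, a v k *
        (φ (v + dir k) * w (v + dir k) - φ v * w v) ^ 2 ≤ M ^ 2 * (192 / H N) := by
      intro k hk v
      have a0 := n0 0
      have a1 := n0 1
      have a2 := n0 2
      rcases hk with rfl | rfl | rfl
      · have := one 0 v; linarith
      · have := one 1 v; linarith
      · have := one 2 v; linarith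
    intro v k
    by_cases hk : k = 0 ∨ k = 1 ∨ k = 2
    · exact base k hk v
    · -- reduce to the opposite direction
      obtain ⟨l, hl, rfl⟩ : ∃ l : ZMod 6, (l = 0 ∨ l = 1 ∨ l = 2) ∧ k = l + 3 := by
        revert hk; revert k; decide
      have := base l hl (v + dir (l + 3))
      have hb : v + dir (l + 3) + dir l = v := by
        rw [dir_add_three, neg_add_cancel_right]
      rw [hb] at this
      have hs := hsym (v + dir (l + 3)) l
      rw [hb] at hs
      rw [← hs] at this
      calc a v (l + 3) * (φ (v + dir (l + 3)) * w (v + dir (l + 3)) - φ v * w v) ^ 2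
          = a v (l + 3) * (φ v * w v - φ (v + dir (l + 3)) * w (v + dir (l + 3))) ^ 2 := by ring
        _ ≤ _ := this
  intro v k
  have l1 : Tendsto (fun N => a v k *
      (cut N (v + dir k) * w (v + dir k) - cut N v * w v) ^ 2) atTop
      (𝓝 (a v k * (1 * w (v + dir k) - 1 * w v) ^ 2)) := by
    refine tendsto_const_nhds.mul (Tendsto.pow ?_ 2)
    exact ((cut_tendsto _).mul tendsto_const_nhds).sub ((cut_tendsto _).mul tendsto_const_nhds)
  have l2 : Tendsto (fun N => M ^ 2 * (192 / H N)) atTop (𝓝 (M ^ 2 * 0)) :=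
    tendsto_const_nhds.mul (H_tendsto.const_div_atTop _)
  have l3 : a v k * (1 * w (v + dir k) - 1 * w v) ^ 2 ≤ M ^ 2 * 0 := by
    refine le_of_tendsto_of_tendsto l1 l2 ?_
    filter_upwards [eventually_ge_atTop 1] with N hN
    exact key N hN v k
  have h4 : (w (v + dir k) - w v) ^ 2 ≤ 0 := by
    by_contra hc
    push Not at hc
    have := mul_pos (ha0 v k) hc
    have h5 : a v k * (1 * w (v + dir k) - 1 * w v) ^ 2 =
      a v k * (w (v + dir k) - w v) ^ 2 := by ring
    linarith
  have h5 : w (v + dir k) - w v = 0 := by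
    have := le_antisymm h4 (sq_nonneg _)
    exact pow_eq_zero_iff (two_ne_zero) |>.1 this
  linarith

end Pool.Agent.TH633.Doyle
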