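import Pool.Agent.TH633.Doyle.Defs

/-!
# Angles of triangles of mutually tangent circles and symmetric conductances
-/

set_option autoImplicit false

namespace Pool.Agent.TH633.Doyle

open Real MeasureTheory intervalIntegral

theorem ang_eq {r a b : ℝ} (hr : 0 < r) (ha : 0 < a) (hb : 0 < b) :
    ang r a b = 2 * arctan (√(a * b / (r * (r + a + b)))) := by
  have hg : 0 < a * b / (r * (r + a + b)) := by positivity
  set t := √(a * b / (r * (r + a + b))) with ht
  have ht2 : t ^ 2 = a * b / (r * (r + a + b)) := Real.sq_sqrt hg.le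
  have ht0 : 0 ≤ t := Real.sqrt_nonneg _
  have h1 : 0 ≤ arctan t := Real.arctan_nonneg.2 ht0
  have h2 : arctan t < π / 2 := Real.arctan_lt_pi_div_two t
  unfold ang
  rw [← Real.arccos_cos (x := 2 * arctan t) (by linarith) (by linarith)]
  congr 1
  rw [Real.cos_two_mul, Real.cos_sq_arctan, ht2]
  field_simp
  ring

/-- The conductance of the edge `ab` in the face `abc`. -/
noncomputable def cnd (a b c : ℝ) : ℝ := √(a * b * c / (a + b + c)) / (a + b)

theorem cnd_pos {a b c : ℝ} (ha : 0 < a) (hb : 0 < b) (hc : 0 < c) : 0 < cnd a b c := by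
  unfold cnd
  have : 0 < a * b * c / (a + b + c) := by positivity
  have := Real.sqrt_pos.2 this
  positivity

theorem cnd_comm (a b c : ℝ) : cnd a b c = cnd b a c := by
  unfold cnd
  rw [mul_comm a b, add_comm a b]

theorem cnd_le {a b c : ℝ} (ha : 0 < a) (hb : 0 < b) (hc : 0 < c) : cnd a b c ≤ 1 / 2 := by
  unfold cnd
  rw [div_le_iff₀ (by positivity)]
  apply Real.sqrt_le_iff.2
  constructor
  · positivity
  · rw [div_le_iff₀ (by positivity)]
    nlinarith [mul_nonneg hc.le (sq_nonneg (a - b)), mul_nonneg (add_pos ha hb).le (sq_nonneg (a + b))]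

/-- The integrated conductance. -/
noncomputable def icnd (a b c δa δb δc : ℝ) : ℝ :=
  ∫ s in (0 : ℝ)..1, cnd (a * exp (s * δa)) (b * exp (s * δb)) (c * exp (s * δc))

theorem icnd_comm (a b c δa δb δc : ℝ) : icnd a b c δa δb δc = icnd b a c δb δa δc := by
  unfold icnd
  congr 1
  ext s
  exact cnd_comm _ _ _

theorem cnd_cont {a b c : ℝ} (ha : 0 < a) (hb : 0 < b) (hc : 0 < c) (δa δb δc : ℝ) :
    Continuous fun s : ℝ => cnd (a * exp (s * δa)) (b * exp (s * δb)) (c * exp (s * δc)) := by
  unfold cnd
  refine Continuous.div (Continuous.sqrt (Continuous.div (by fun_prop) (by fun_prop) ?_))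
    (by fun_prop) ?_
  · intro s; positivity
  · intro s; positivity

theorem icnd_pos {a b c : ℝ} (ha : 0 < a) (hb : 0 < b) (hc : 0 < c) (δa δb δc : ℝ) :
    0 < icnd a b c δa δb δc := by
  unfold icnd
  apply intervalIntegral_pos_of_pos_on
  · exact (cnd_cont ha hb hc _ _ _).intervalIntegrable _ _
  · intro s _
    exact cnd_pos (by positivity) (by positivity) (by positivity)
  · norm_num

theorem icnd_le {a b c : ℝ} (ha : 0 < a) (hb : 0 < b) (hc : 0 < c) (δa δb δc : ℝ) :
    icnd a b c δa δb δc ≤ 1 / 2 := by
  unfold icnd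
  have h : ∫ s in (0 : ℝ)..1, cnd (a * exp (s * δa)) (b * exp (s * δb)) (c * exp (s * δc)) ≤
      ∫ s in (0 : ℝ)..1, (1 / 2 : ℝ) := by
    apply integral_mono_on (by norm_num) ((cnd_cont ha hb hc _ _ _).intervalIntegrable _ _)
      (by simp)
    intro s _
    exact cnd_le (by positivity) (by positivity) (by positivity)
  refine h.trans ?_
  simp

theorem deriv_ang {A B C : ℝ → ℝ} {s δa δb δc : ℝ} (hA : 0 < A s) (hB : 0 < B s)
    (hC : 0 < C s) (dA : HasDerivAt A (A s * δa) s) (dB : HasDerivAt B (B s * δb) s)
    (dC : HasDerivAt C (C s * δc) s) :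
    HasDerivAt (fun s => 2 * arctan (√(B s * C s / (A s * (A s + B s + C s)))))
      (cnd (A s) (B s) (C s) * (δb - δa) + cnd (A s) (C s) (B s) * (δc - δa)) s := by
  have dN : HasDerivAt (fun s => B s * C s) (B s * δb * C s + B s * (C s * δc)) s := dB.mul dC
  have dT : HasDerivAt (fun s => A s + B s + C s) (A s * δa + B s * δb + C s * δc) s :=
    (dA.add dB).add dC
  have dD : HasDerivAt (fun s => A s * (A s + B s + C s))
      (A s * δa * (A s + B s + C s) + A s * (A s * δa + B s * δb + C s * δc)) s := dA.mul dT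
  have hD : A s * (A s + B s + C s) ≠ 0 := by positivity
  have dg : HasDerivAt (fun s => B s * C s / (A s * (A s + B s + C s)))
      (((B s * δb * C s + B s * (C s * δc)) * (A s * (A s + B s + C s)) -
        (B s * C s) * (A s * δa * (A s + B s + C s) + A s * (A s * δa + B s * δb + C s * δc))) /
        (A s * (A s + B s + C s)) ^ 2) s := dN.div dD hD
  have hgp : 0 < B s * C s / (A s * (A s + B s + C s)) := by positivity
  have ds := dg.sqrt hgp.ne'
  have dat := ds.arctan
  have d2 := dat.const_mul 2
  refine d2.congr_deriv ?_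
  set a := A s
  set b := B s
  set c := C s
  have hS : 0 < a * b * c / (a + b + c) := by positivity
  have hρ : 0 < √(a * b * c / (a + b + c)) := Real.sqrt_pos.2 hS
  have hρ2 : √(a * b * c / (a + b + c)) ^ 2 = a * b * c / (a + b + c) := Real.sq_sqrt hS.le
  have e1 : √(b * c / (a * (a + b + c))) = √(a * b * c / (a + b + c)) / a := by
    rw [eq_div_iff hA.ne']
    rw [← Real.sqrt_sq (x := √(b * c / (a * (a + b + c))) * a) (by positivity)]
    congr 1
    rw [mul_pow, Real.sq_sqrt hgp.le]
    field_simp
  have e2 : √(a * c * b / (a + c + b)) = √(a * b * c / (a + b + c)) := by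
    congr 1
    rw [show a * c * b = a * b * c by ring, show a + c + b = a + b + c by ring]
  unfold cnd
  rw [e2, e1]
  set ρ := √(a * b * c / (a + b + c)) with hρd
  rw [div_pow, hρ2]
  have hρ3 : ρ ^ 2 * (a + b + c) = a * b * c := by
    rw [hρ2]; field_simp
  field_simp
  have key : ρ ^ 2 = a * b * c / (a + b + c) := hρ2
  rw [key]
  field_simp
  ring

/-- The change of an angle along a change of the logarithms of the radii. -/
theorem ang_sub {a b c : ℝ} (ha : 0 < a) (hb : 0 < b) (hc : 0 < c) (δa δb δc : ℝ) :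
    ang (a * exp δa) (b * exp δb) (c * exp δc) - ang a b c =
      icnd a b c δa δb δc * (δb - δa) + icnd a c b δa δc δb * (δc - δa) := by
  set f : ℝ → ℝ := fun s => ang (a * exp (s * δa)) (b * exp (s * δb)) (c * exp (s * δc)) with hf
  set f' : ℝ → ℝ := fun s =>
    cnd (a * exp (s * δa)) (b * exp (s * δb)) (c * exp (s * δc)) * (δb - δa) +
    cnd (a * exp (s * δa)) (c * exp (s * δc)) (b * exp (s * δb)) * (δc - δa) with hf'
  have hexp : ∀ (x δ s : ℝ), HasDerivAt (fun s : ℝ => x * exp (s * δ)) (x * exp (s * δ) * δ) s := by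
    intro x δ s
    have := ((hasDerivAt_mul_const δ (x := s)).exp).const_mul x
    rw [← mul_assoc] at this
    exact this
  have hd : ∀ s, HasDerivAt f (f' s) s := by
    intro s
    have e : f = fun s => 2 * arctan (√((b * exp (s * δb)) * (c * exp (s * δc)) /
        ((a * exp (s * δa)) * (a * exp (s * δa) + b * exp (s * δb) + c * exp (s * δc))))) := by
      funext s
      exact ang_eq (by positivity) (by positivity) (by positivity)
    rw [e]
    exact deriv_ang (A := fun s => a * exp (s * δa)) (B := fun s => b * exp (s * δb))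
      (C := fun s => c * exp (s * δc)) (by positivity) (by positivity) (by positivity)
      (hexp a δa s) (hexp b δb s) (hexp c δc s)
  have hc' : Continuous f' := by
    simp only [hf']
    exact ((cnd_cont ha hb hc _ _ _).mul continuous_const).add
      ((cnd_cont ha hc hb _ _ _).mul continuous_const)
  have key := integral_eq_sub_of_hasDerivAt (a := 0) (b := 1) (fun s _ => hd s)
    (hc'.intervalIntegrable _ _)
  have e1 : f 1 - f 0 = ang (a * exp δa) (b * exp δb) (c * exp δc) - ang a b c := by
    simp [hf]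
  rw [← e1, ← key]
  simp only [hf']
  rw [intervalIntegral.integral_add, intervalIntegral.integral_mul_const,
    intervalIntegral.integral_mul_const]
  · rfl
  · exact ((cnd_cont ha hb hc _ _ _).mul continuous_const).intervalIntegrable _ _
  · exact ((cnd_cont ha hc hb _ _ _).mul continuous_const).intervalIntegrable _ _

end Pool.Agent.TH633.Doyle
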