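import Pool.Agent.TH633.Doyle.Ring
import Pool.Agent.TH633.Doyle.Tri

/-!
# Locally univalent circle packings of the hexagonal complex are Doyle spirals
-/

set_option autoImplicit false

namespace Pool.Agent.TH633.Doyle

open Real

/-- The edge conductances attached to two labels. -/
noncomputable def edge (R δ : ℤ × ℤ → ℝ) (v : ℤ × ℤ) (k : ZMod 6) : ℝ :=
  icnd (R v) (R (v + dir k)) (R (v + dir (k + 1))) (δ v) (δ (v + dir k)) (δ (v + dir (k + 1))) +
  icnd (R v) (R (v + dir k)) (R (v + dir (k - 1))) (δ v) (δ (v + dir k)) (δ (v + dir (k - 1)))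

theorem dir_a (k : ZMod 6) : dir k + dir (k + 3) = 0 := by revert k; decide
theorem dir_b (k : ZMod 6) : dir k + dir (k + 3 + 1) = dir (k - 1) := by revert k; decide
theorem dir_c (k : ZMod 6) : dir k + dir (k + 3 - 1) = dir (k + 1) := by revert k; decide

theorem edge_symm (R δ : ℤ × ℤ → ℝ) (v : ℤ × ℤ) (k : ZMod 6) :
    edge R δ (v + dir k) (k + 3) = edge R δ v k := by
  unfold edge
  rw [add_assoc v, add_assoc v, add_assoc v, dir_a, dir_b, dir_c, add_zero,
    icnd_comm (R (v + dir k)) (R v), icnd_comm (R (v + dir k)) (R v), add_comm]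

theorem edge_pos {R : ℤ × ℤ → ℝ} (hR : ∀ v, 0 < R v) (δ : ℤ × ℤ → ℝ) (v : ℤ × ℤ) (k : ZMod 6) :
    0 < edge R δ v k :=
  add_pos (icnd_pos (hR _) (hR _) (hR _) _ _ _) (icnd_pos (hR _) (hR _) (hR _) _ _ _)

theorem edge_le {R : ℤ × ℤ → ℝ} (hR : ∀ v, 0 < R v) (δ : ℤ × ℤ → ℝ) (v : ℤ × ℤ) (k : ZMod 6) :
    edge R δ v k ≤ 1 := by
  have h1 := icnd_le (hR v) (hR (v + dir k)) (hR (v + dir (k + 1))) (δ v) (δ (v + dir k))
    (δ (v + dir (k + 1)))
  have h2 := icnd_le (hR v) (hR (v + dir k)) (hR (v + dir (k - 1))) (δ v) (δ (v + dir k))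
    (δ (v + dir (k - 1)))
  unfold edge
  linarith

/-- The difference of the logarithms of two packing labels is harmonic. -/
theorem harmonic {R R' : ℤ × ℤ → ℝ} (hR : IsPackingLabel R) (hR' : IsPackingLabel R')
    {δ : ℤ × ℤ → ℝ} (hδ : ∀ v, R' v = R v * exp (δ v)) (v : ℤ × ℤ) :
    ∑ k : ZMod 6, edge R δ v k * (δ (v + dir k) - δ v) = 0 := by
  have h1 : angleSum R' v - angleSum R v = 0 := by rw [hR.2 v, hR'.2 v, sub_self]
  unfold angleSum at h1
  rw [← Finset.sum_sub_distrib] at h1
  simp only [hδ] at h1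
  simp only [ang_sub (hR.1 _) (hR.1 _) (hR.1 _)] at h1
  rw [Finset.sum_add_distrib] at h1
  set g : ZMod 6 → ℝ := fun k => icnd (R v) (R (v + dir k)) (R (v + dir (k - 1)))
    (δ v) (δ (v + dir k)) (δ (v + dir (k - 1))) * (δ (v + dir k) - δ v) with hg
  have h2 : ∑ k : ZMod 6, icnd (R v) (R (v + dir (k + 1))) (R (v + dir k)) (δ v)
      (δ (v + dir (k + 1))) (δ (v + dir k)) * (δ (v + dir (k + 1)) - δ v) = ∑ k, g k := by
    rw [← Equiv.sum_comp (Equiv.addRight (1 : ZMod 6)) g]
    apply Finset.sum_congr rfl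
    intro k _
    simp only [hg, Equiv.coe_addRight, add_sub_cancel_right]
  rw [h2, ← Finset.sum_add_distrib] at h1
  rw [← h1]
  apply Finset.sum_congr rfl
  intro k _
  simp only [hg]
  unfold edge
  ring

theorem dist_dir (v : ℤ × ℤ) (k l : ZMod 6) : v + dir k + dir l = v + dir l + dir k := by
  rw [add_assoc, add_comm (dir k), add_assoc]

/-- Translates of packing labels are packing labels. -/
theorem shift_label {R : ℤ × ℤ → ℝ} (hR : IsPackingLabel R) (e : ℤ × ℤ) :
    IsPackingLabel fun v => R (v + e) := by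
  refine ⟨fun v => hR.1 _, fun v => ?_⟩
  have := hR.2 (v + e)
  unfold angleSum at this ⊢
  rw [← this]
  apply Finset.sum_congr rfl
  intro k _
  rw [add_right_comm v e (dir k), add_right_comm v e (dir (k + 1))]

/-- The ratio of the radii of two adjacent circles depends only on the direction. -/
theorem ratio_const {R : ℤ × ℤ → ℝ} {z : ℤ × ℤ → ℂ} (hp : IsCirclePacking R z)
    (hu : IsLocallyUnivalent R z) (l : ZMod 6) :
    ∃ a : ℝ, 0 < a ∧ ∀ v, R (v + dir l) = a * R v := by
  have hR := hp.1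
  have hpos := hR.1
  set δ : ℤ × ℤ → ℝ := fun v => log (R (v + dir l)) - log (R v) with hδ
  have hδ' : ∀ v, R (v + dir l) = R v * exp (δ v) := by
    intro v
    simp only [hδ]
    rw [Real.exp_sub, Real.exp_log (hpos _), Real.exp_log (hpos _)]
    have := (hpos v).ne'
    field_simp
  have hharm := harmonic hR (shift_label hR (dir l)) hδ'
  have hb : ∀ v, |δ v| ≤ log 59049 := by
    intro v
    simp only [hδ]
    have h1 := ring_lemma hp hu v l
    have h2 := ring_lemma hp hu (v + dir l) (l + 3)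
    rw [add_assoc, dir_a, add_zero] at h2
    have p1 := hpos v
    have p2 := hpos (v + dir l)
    have l1 := Real.log_le_log p1 h1
    have l2 := Real.log_le_log p2 h2
    rw [Real.log_mul (by norm_num) p2.ne'] at l1
    rw [Real.log_mul (by norm_num) p1.ne'] at l2
    rw [abs_le]
    constructor <;> linarith
  have hc := liouville (edge R δ) δ (log 59049) (edge_pos hpos δ) (edge_le hpos δ)
    (edge_symm R δ) hb hharm
  -- `δ` is constant
  have h10 : ∀ x y : ℤ, δ (x + 1, y) = δ (x, y) := by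
    intro x y
    have := hc (x, y) 0
    simpa [dir] using this
  have h01 : ∀ x y : ℤ, δ (x, y + 1) = δ (x, y) := by
    intro x y
    have := hc (x, y) 1
    simpa [dir] using this
  have hx : ∀ x y : ℤ, δ (x, y) = δ (0, y) := by
    intro x y
    induction x using Int.induction_on with
    | zero => rfl
    | succ i ih => rw [h10, ih]
    | pred i ih =>
      have := h10 (-(i : ℤ) - 1) y
      rw [sub_add_cancel] at this
      rw [← this, ih]
  have hy : ∀ y : ℤ, δ (0, y) = δ (0, 0) := by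
    intro y
    induction y using Int.induction_on with
    | zero => rfl
    | succ i ih => rw [h01, ih]
    | pred i ih =>
      have := h01 0 (-(i : ℤ) - 1)
      rw [sub_add_cancel] at this
      rw [← this, ih]
  refine ⟨exp (δ (0, 0)), Real.exp_pos _, fun v => ?_⟩
  rw [hδ' v, show δ v = δ (0, 0) from (hx v.1 v.2).trans (hy v.2), mul_comm]

/-- **Doyle's conjecture.** -/
theorem doyle {R : ℤ × ℤ → ℝ} {z : ℤ × ℤ → ℂ} (hp : IsCirclePacking R z)
    (hu : IsLocallyUnivalent R z) :
    ∃ a b c : ℝ, 0 < a ∧ 0 < b ∧ 0 < c ∧ ∀ n m : ℤ, R (n, m) = c * a ^ n * b ^ m := by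
  obtain ⟨a, ha, hRa⟩ := ratio_const hp hu 0
  obtain ⟨b, hb, hRb⟩ := ratio_const hp hu 1
  have h10 : ∀ x y : ℤ, R (x + 1, y) = a * R (x, y) := by
    intro x y
    have := hRa (x, y)
    simpa [dir] using this
  have h01 : ∀ x y : ℤ, R (x, y + 1) = b * R (x, y) := by
    intro x y
    have := hRb (x, y)
    simpa [dir] using this
  have hy : ∀ y : ℤ, R (0, y) = R (0, 0) * b ^ y := by
    intro y
    induction y using Int.induction_on with
    | zero => simp
    | succ i ih => rw [h01, ih, zpow_add_one₀ hb.ne']; ring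
    | pred i ih =>
      have := h01 0 (-(i : ℤ) - 1)
      rw [sub_add_cancel, ih] at this
      rw [zpow_sub_one₀ hb.ne']
      field_simp
      linarith
  have hx : ∀ x y : ℤ, R (x, y) = R (0, y) * a ^ x := by
    intro x y
    induction x using Int.induction_on with
    | zero => simp
    | succ i ih => rw [h10, ih, zpow_add_one₀ ha.ne']; ring
    | pred i ih =>
      have := h10 (-(i : ℤ) - 1) y
      rw [sub_add_cancel, ih] at this
      rw [zpow_sub_one₀ ha.ne']
      field_simp
      linarith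
  exact ⟨a, b, R (0, 0), ha, hb, hp.1.1 _, fun n m => by rw [hx, hy]; ring⟩

end Pool.Agent.TH633.Doyle
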