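import Pool.Agent.TH633.Doyle.Liou

/-!
# The ring lemma for flowers with six petals
-/

set_option autoImplicit false

namespace Pool.Agent.TH633.Doyle

open Real

theorem abs_sin_add_le (x y : ℝ) : |sin (x + y)| ≤ |sin x| + |sin y| := by
  rw [sin_add]
  calc |sin x * cos y + cos x * sin y| ≤ |sin x * cos y| + |cos x * sin y| := abs_add_le _ _
    _ = |sin x| * |cos y| + |cos x| * |sin y| := by rw [abs_mul, abs_mul]
    _ ≤ |sin x| * 1 + 1 * |sin y| := by
        gcongr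
        · exact abs_cos_le_one y
        · exact abs_cos_le_one x
    _ = _ := by ring

/-- Abstract ring lemma. -/
theorem ring_abs (s t : ZMod 6 → ℝ) (hs0 : ∀ k, 0 < s k) (hs1 : ∀ k, s k ≤ 1)
    (ht0 : ∀ k, 0 ≤ t k) (ht1 : ∀ k, t k ≤ π / 2) (hsum : ∑ k, t k = π)
    (hst : ∀ k, sin (t k) = s k * s (k + 1))
    (h2 : ∀ k, s k * s (k + 2) ≤ |sin (t k + t (k + 1))|)
    (h3 : ∀ k, s k * s (k + 3) ≤ |sin (t k + t (k + 1) + t (k + 2))|)
    (h4 : ∀ k, s k * s (k + 4) ≤ |sin (t k + t (k + 1) + t (k + 2) + t (k + 3))|)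
    (h5 : ∀ k, s k * s (k + 5) ≤ |sin (t k + t (k + 1) + t (k + 2) + t (k + 3) + t (k + 4))|)
    (k : ZMod 6) : 1 / 243 ≤ s k := by
  have hab : ∀ k, |sin (t k)| = s k * s (k + 1) := fun k => by
    rw [hst, abs_of_nonneg (mul_nonneg (hs0 _).le (hs0 _).le)]
  have i2 : ∀ k, s k * s (k + 2) ≤ s k * s (k + 1) + s (k + 1) * s (k + 2) := by
    intro k
    have a1 := abs_sin_add_le (t k) (t (k + 1))
    rw [hab, hab, show k + 1 + 1 = k + 2 by ring] at a1
    exact (h2 k).trans a1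
  have i3 : ∀ k, s k * s (k + 3) ≤ s k * s (k + 1) + s (k + 1) * s (k + 2) +
      s (k + 2) * s (k + 3) := by
    intro k
    have a1 := abs_sin_add_le (t k) (t (k + 1))
    have a2 := abs_sin_add_le (t k + t (k + 1)) (t (k + 2))
    rw [hab, hab, show k + 1 + 1 = k + 2 by ring] at a1
    rw [hab (k + 2), show k + 2 + 1 = k + 3 by ring] at a2
    have := h3 k
    linarith
  have i4 : ∀ k, s k * s (k + 4) ≤ s k * s (k + 1) + s (k + 1) * s (k + 2) +
      s (k + 2) * s (k + 3) + s (k + 3) * s (k + 4) := by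
    intro k
    have a1 := abs_sin_add_le (t k) (t (k + 1))
    have a2 := abs_sin_add_le (t k + t (k + 1)) (t (k + 2))
    have a3 := abs_sin_add_le (t k + t (k + 1) + t (k + 2)) (t (k + 3))
    rw [hab, hab, show k + 1 + 1 = k + 2 by ring] at a1
    rw [hab (k + 2), show k + 2 + 1 = k + 3 by ring] at a2
    rw [hab (k + 3), show k + 3 + 1 = k + 4 by ring] at a3
    have := h4 k
    linarith
  have i5 : ∀ k, s k * s (k + 5) ≤ s k * s (k + 1) + s (k + 1) * s (k + 2) +
      s (k + 2) * s (k + 3) + s (k + 3) * s (k + 4) + s (k + 4) * s (k + 5) := by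
    intro k
    have a1 := abs_sin_add_le (t k) (t (k + 1))
    have a2 := abs_sin_add_le (t k + t (k + 1)) (t (k + 2))
    have a3 := abs_sin_add_le (t k + t (k + 1) + t (k + 2)) (t (k + 3))
    have a4 := abs_sin_add_le (t k + t (k + 1) + t (k + 2) + t (k + 3)) (t (k + 4))
    rw [hab, hab, show k + 1 + 1 = k + 2 by ring] at a1
    rw [hab (k + 2), show k + 2 + 1 = k + 3 by ring] at a2
    rw [hab (k + 3), show k + 3 + 1 = k + 4 by ring] at a3
    rw [hab (k + 4), show k + 4 + 1 = k + 5 by ring] at a4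
    have := h5 k
    linarith
  -- growth of a block of small petals
  have grow : ∀ (e p q : ℝ), 0 < e → p * q ≤ e * (p + q) + 3 * e ^ 2 → p ≤ 3 * e ∨ q ≤ 3 * e := by
    intro e p q he h
    by_contra hc
    push Not at hc
    nlinarith [mul_pos (sub_pos.2 hc.1) (sub_pos.2 hc.2), mul_pos he (sub_pos.2 hc.1),
      mul_pos he (sub_pos.2 hc.2), mul_pos he he]
  set e := s k with he
  have e0 : 0 < e := hs0 k
  -- blocks
  have b1 : ∃ k, s (k + 1) ≤ e := ⟨k - 1, by rw [sub_add_cancel]⟩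
  have b2 : ∃ k, s (k + 1) ≤ 3 * e ∧ s (k + 2) ≤ 3 * e := by
    obtain ⟨k, hk⟩ := b1
    have := i2 k
    have p0 := hs0 k
    have p1 := hs0 (k + 1)
    have p2 := hs0 (k + 2)
    rcases grow e (s k) (s (k + 2)) e0 (by
      nlinarith [mul_le_mul_of_nonneg_left hk p0.le, mul_le_mul_of_nonneg_left hk p2.le,
        mul_pos e0 e0]) with h | h
    · refine ⟨k - 1, ?_, ?_⟩
      · rw [sub_add_cancel]; exact h
      · rw [show k - 1 + 2 = k + 1 by ring]; linarith
    · exact ⟨k, by linarith, h⟩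
  have b3 : ∃ k, s (k + 1) ≤ 9 * e ∧ s (k + 2) ≤ 9 * e ∧ s (k + 3) ≤ 9 * e := by
    obtain ⟨k, hk, hk2⟩ := b2
    have := i3 k
    have p0 := hs0 k
    have p1 := hs0 (k + 1)
    have p2 := hs0 (k + 2)
    have p3 := hs0 (k + 3)
    rcases grow (3 * e) (s k) (s (k + 3)) (by linarith) (by
      nlinarith [mul_le_mul_of_nonneg_left hk p0.le, mul_le_mul_of_nonneg_left hk2 p3.le,
        mul_le_mul hk hk2 p2.le (by linarith), mul_pos e0 e0]) with h | h
    · refine ⟨k - 1, ?_, ?_, ?_⟩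
      · rw [sub_add_cancel]; linarith
      · rw [show k - 1 + 2 = k + 1 by ring]; linarith
      · rw [show k - 1 + 3 = k + 2 by ring]; linarith
    · exact ⟨k, by linarith, by linarith, by linarith⟩
  have b4 : ∃ k, s (k + 1) ≤ 27 * e ∧ s (k + 2) ≤ 27 * e ∧ s (k + 3) ≤ 27 * e ∧
      s (k + 4) ≤ 27 * e := by
    obtain ⟨k, hk, hk2, hk3⟩ := b3
    have := i4 k
    have p0 := hs0 k
    have p1 := hs0 (k + 1)
    have p2 := hs0 (k + 2)
    have p3 := hs0 (k + 3)
    have p4 := hs0 (k + 4)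
    rcases grow (9 * e) (s k) (s (k + 4)) (by linarith) (by
      nlinarith [mul_le_mul_of_nonneg_left hk p0.le, mul_le_mul_of_nonneg_left hk3 p4.le,
        mul_le_mul hk hk2 p2.le (by linarith), mul_le_mul hk2 hk3 p3.le (by linarith),
        mul_pos e0 e0]) with h | h
    · refine ⟨k - 1, ?_, ?_, ?_, ?_⟩
      · rw [sub_add_cancel]; linarith
      · rw [show k - 1 + 2 = k + 1 by ring]; linarith
      · rw [show k - 1 + 3 = k + 2 by ring]; linarith
      · rw [show k - 1 + 4 = k + 3 by ring]; linarith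
    · exact ⟨k, by linarith, by linarith, by linarith, by linarith⟩
  have b5 : ∃ k, s (k + 1) ≤ 81 * e ∧ s (k + 2) ≤ 81 * e ∧ s (k + 3) ≤ 81 * e ∧
      s (k + 4) ≤ 81 * e ∧ s (k + 5) ≤ 81 * e := by
    obtain ⟨k, hk, hk2, hk3, hk4⟩ := b4
    have := i5 k
    have p0 := hs0 k
    have p1 := hs0 (k + 1)
    have p2 := hs0 (k + 2)
    have p3 := hs0 (k + 3)
    have p4 := hs0 (k + 4)
    have p5 := hs0 (k + 5)
    rcases grow (27 * e) (s k) (s (k + 5)) (by linarith) (by
      nlinarith [mul_le_mul_of_nonneg_left hk p0.le, mul_le_mul_of_nonneg_left hk4 p5.le,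
        mul_le_mul hk hk2 p2.le (by linarith), mul_le_mul hk2 hk3 p3.le (by linarith),
        mul_le_mul hk3 hk4 p4.le (by linarith), mul_pos e0 e0]) with h | h
    · refine ⟨k - 1, ?_, ?_, ?_, ?_, ?_⟩
      · rw [sub_add_cancel]; linarith
      · rw [show k - 1 + 2 = k + 1 by ring]; linarith
      · rw [show k - 1 + 3 = k + 2 by ring]; linarith
      · rw [show k - 1 + 4 = k + 3 by ring]; linarith
      · rw [show k - 1 + 5 = k + 4 by ring]; linarith
    · exact ⟨k, by linarith, by linarith, by linarith, by linarith, by linarith⟩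
  obtain ⟨k, c1, c2, c3, c4, c5⟩ := b5
  have small : ∀ j, s j * s (j + 1) ≤ 81 * e → t j ≤ π / 2 * (81 * e) := by
    intro j hj
    have h1 := Real.mul_le_sin (ht0 j) (ht1 j)
    rw [hst j] at h1
    have h2 : 2 / π * t j ≤ 81 * e := h1.trans hj
    have hpi := Real.pi_pos
    rw [div_mul_eq_mul_div, div_le_iff₀ hpi] at h2
    nlinarith
  have left_ : ∀ j, s j ≤ 81 * e → s j * s (j + 1) ≤ 81 * e := fun j hj => by
    have := mul_le_mul hj (hs1 (j + 1)) (hs0 _).le (by linarith : (0:ℝ) ≤ 81 * e)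
    linarith
  have right_ : ∀ j, s (j + 1) ≤ 81 * e → s j * s (j + 1) ≤ 81 * e := fun j hj => by
    have := mul_le_mul (hs1 j) hj (hs0 _).le (by norm_num : (0:ℝ) ≤ 1)
    linarith
  have t0 := small k (right_ k c1)
  have t1 := small (k + 1) (left_ _ c1)
  have t2 := small (k + 2) (left_ _ c2)
  have t3 := small (k + 3) (left_ _ c3)
  have t4 := small (k + 4) (left_ _ c4)
  have t5 := small (k + 5) (left_ _ c5)
  have hs : ∑ j, t j = t k + t (k + 1) + t (k + 2) + t (k + 3) + t (k + 4) + t (k + 5) := by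
    rw [← Equiv.sum_comp (Equiv.addLeft k) t, sum_six]
    simp only [Equiv.coe_addLeft, add_zero]
    ring
  rw [hs] at hsum
  have hpi := Real.pi_pos
  have : π ≤ 6 * (π / 2 * (81 * e)) := by linarith
  have h6 : π * 1 ≤ π * (243 * e) := by linarith
  have h7 := le_of_mul_le_mul_left h6 hpi
  rw [div_le_iff₀ (by norm_num)]
  linarith

/-! ## Geometry of the flower -/

theorem cos_ang {r a b : ℝ} (hr : 0 < r) (ha : 0 < a) (hb : 0 < b) :
    cos (ang r a b) = ((r + a) ^ 2 + (r + b) ^ 2 - (a + b) ^ 2) / (2 * (r + a) * (r + b)) := by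
  unfold ang
  apply Real.cos_arccos
  · rw [le_div_iff₀ (by positivity)]
    nlinarith [mul_pos hr ha, mul_pos hr hb, mul_pos ha hb, mul_pos hr hr]
  · rw [div_le_iff₀ (by positivity)]
    nlinarith [mul_pos hr ha, mul_pos hr hb, mul_pos ha hb, mul_pos hr hr]

theorem ang_nonneg (r a b : ℝ) : 0 ≤ ang r a b := Real.arccos_nonneg _

theorem ang_le (r a b : ℝ) : ang r a b ≤ π := Real.arccos_le_pi _

/-- `s = √(a / (r + a))`. -/
noncomputable def sq (r a : ℝ) : ℝ := √(a / (r + a))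

theorem sq_pos {r a : ℝ} (hr : 0 < r) (ha : 0 < a) : 0 < sq r a :=
  Real.sqrt_pos.2 (by positivity)

theorem sq_le_one {r a : ℝ} (hr : 0 < r) (ha : 0 < a) : sq r a ≤ 1 := by
  unfold sq
  rw [Real.sqrt_le_iff]
  refine ⟨zero_le_one, ?_⟩
  rw [one_pow, div_le_one (by positivity)]
  linarith

theorem sq_sq {r a : ℝ} (hr : 0 < r) (ha : 0 < a) : sq r a ^ 2 = a / (r + a) :=
  Real.sq_sqrt (by positivity)

theorem sin_half_ang {r a b : ℝ} (hr : 0 < r) (ha : 0 < a) (hb : 0 < b) :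
    sin (ang r a b / 2) = sq r a * sq r b := by
  have h0 : 0 ≤ sin (ang r a b / 2) := by
    apply Real.sin_nonneg_of_nonneg_of_le_pi
    · linarith [ang_nonneg r a b]
    · linarith [ang_le r a b, Real.pi_pos]
  rw [← Real.sqrt_sq h0, ← Real.sqrt_sq (mul_pos (sq_pos hr ha) (sq_pos hr hb)).le]
  congr 1
  rw [mul_pow, sq_sq hr ha, sq_sq hr hb]
  have h1 : cos (ang r a b) = 1 - 2 * sin (ang r a b / 2) ^ 2 := by
    have := Real.cos_two_mul (ang r a b / 2)
    have h2 := Real.sin_sq_add_cos_sq (ang r a b / 2)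
    rw [show 2 * (ang r a b / 2) = ang r a b by ring] at this
    linarith
  rw [cos_ang hr ha hb] at h1
  have h3 : sin (ang r a b / 2) ^ 2 =
    (1 - ((r + a) ^ 2 + (r + b) ^ 2 - (a + b) ^ 2) / (2 * (r + a) * (r + b))) / 2 := by linarith
  rw [h3]
  field_simp
  ring

/-- Positions of consecutive petals. -/
theorem step {r a b : ℝ} (hr : 0 < r) (ha : 0 < a) (hb : 0 < b) {x y : ℂ}
    (hx : ‖x‖ = r + a) (hy : ‖y‖ = r + b) (hxy : ‖x - y‖ = a + b)
    (him : 0 < (y * (starRingEnd ℂ) x).im) :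
    y = (((r + b) / (r + a) : ℝ) : ℂ) * Complex.exp (ang r a b * Complex.I) * x := by
  have hre : (y * (starRingEnd ℂ) x).re = (r + a) * (r + b) * cos (ang r a b) := by
    rw [cos_ang hr ha hb]
    have h1 : ‖x - y‖ ^ 2 = ‖x‖ ^ 2 + ‖y‖ ^ 2 - 2 * (y * (starRingEnd ℂ) x).re := by
      rw [← Complex.normSq_eq_norm_sq, ← Complex.normSq_eq_norm_sq, ← Complex.normSq_eq_norm_sq]
      simp only [Complex.normSq_apply, Complex.sub_re, Complex.sub_im, Complex.mul_re,
        Complex.conj_re, Complex.conj_im]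
      ring
    rw [hx, hy, hxy] at h1
    field_simp
    linarith
  have hn : ‖y * (starRingEnd ℂ) x‖ = (r + a) * (r + b) := by
    rw [norm_mul, Complex.norm_conj, hx, hy]; ring
  have hs0 : 0 ≤ sin (ang r a b) :=
    Real.sin_nonneg_of_nonneg_of_le_pi (ang_nonneg _ _ _) (ang_le _ _ _)
  have him2 : (y * (starRingEnd ℂ) x).im = (r + a) * (r + b) * sin (ang r a b) := by
    have h1 : (y * (starRingEnd ℂ) x).im ^ 2 = ((r + a) * (r + b) * sin (ang r a b)) ^ 2 := by
      have h2 : ‖y * (starRingEnd ℂ) x‖ ^ 2 = (y * (starRingEnd ℂ) x).re ^ 2 +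
          (y * (starRingEnd ℂ) x).im ^ 2 := by
        rw [← Complex.normSq_eq_norm_sq, Complex.normSq_apply]; ring
      rw [hn, hre] at h2
      have h3 := Real.sin_sq_add_cos_sq (ang r a b)
      have : (y * (starRingEnd ℂ) x).im ^ 2 =
        ((r + a) * (r + b)) ^ 2 * (1 - cos (ang r a b) ^ 2) := by linarith
      rw [this]
      have h4 : 1 - cos (ang r a b) ^ 2 = sin (ang r a b) ^ 2 := by linarith
      rw [h4]; ring
    have h5 : 0 ≤ (r + a) * (r + b) * sin (ang r a b) := by positivity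
    exact (pow_left_inj₀ him.le h5 two_ne_zero).1 h1
  have e : y * (starRingEnd ℂ) x =
      (((r + a) * (r + b) : ℝ) : ℂ) * Complex.exp (ang r a b * Complex.I) := by
    apply Complex.ext
    · rw [hre, Complex.re_ofReal_mul, Complex.exp_ofReal_mul_I_re]
    · rw [him2, Complex.im_ofReal_mul, Complex.exp_ofReal_mul_I_im]
  have hxc : (starRingEnd ℂ) x * x = (((r + a) ^ 2 : ℝ) : ℂ) := by
    rw [mul_comm, Complex.mul_conj, Complex.normSq_eq_norm_sq, hx]
  have hra : ((r + a : ℝ) : ℂ) ≠ 0 := by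
    rw [Ne, Complex.ofReal_eq_zero]; positivity
  have e2 : y * (((r + a) ^ 2 : ℝ) : ℂ) =
      (((r + a) * (r + b) : ℝ) : ℂ) * Complex.exp (ang r a b * Complex.I) * x := by
    rw [← hxc, ← mul_assoc, e]
  have e3 : y = (((r + a) * (r + b) : ℝ) : ℂ) * Complex.exp (ang r a b * Complex.I) * x /
      (((r + a) ^ 2 : ℝ) : ℂ) := by
    rw [← e2, mul_div_assoc, div_self, mul_one]
    rw [Ne, Complex.ofReal_eq_zero]; positivity
  rw [e3]
  push_cast
  push_cast at hra
  field_simp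

/-- The inequality coming from two disjoint petals. -/
theorem chord {r a b A : ℝ} (hr : 0 < r) (ha : 0 < a) (hb : 0 < b) {x y : ℂ}
    (hx : ‖x‖ = r + a)
    (h : y = (((r + b) / (r + a) : ℝ) : ℂ) * Complex.exp (A * Complex.I) * x)
    (hd : a + b ≤ ‖x - y‖) : sq r a * sq r b ≤ |sin (A / 2)| := by
  have h1 : ‖x - y‖ ^ 2 = (r + a) ^ 2 + (r + b) ^ 2 - 2 * (r + a) * (r + b) * cos A := by
    set q : ℝ := (r + b) / (r + a) with hq
    have e : x - y = (1 - (q : ℂ) * Complex.exp (A * Complex.I)) * x := by rw [h]; ring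
    rw [e, norm_mul, mul_pow, hx]
    have e2 : ‖(1 : ℂ) - q * Complex.exp (A * Complex.I)‖ ^ 2 = 1 - 2 * q * cos A + q ^ 2 := by
      rw [← Complex.normSq_eq_norm_sq, Complex.normSq_apply]
      simp only [Complex.sub_re, Complex.one_re, Complex.re_ofReal_mul,
        Complex.exp_ofReal_mul_I_re, Complex.sub_im, Complex.one_im, Complex.im_ofReal_mul,
        Complex.exp_ofReal_mul_I_im]
      nlinarith [Real.sin_sq_add_cos_sq A]
    rw [e2, hq]
    field_simp
    ring
  have h2 : (a + b) ^ 2 ≤ ‖x - y‖ ^ 2 := by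
    apply pow_le_pow_left₀ (by positivity) hd
  rw [h1] at h2
  have h3 : cos A = 1 - 2 * sin (A / 2) ^ 2 := by
    have := Real.cos_two_mul (A / 2)
    have h2 := Real.sin_sq_add_cos_sq (A / 2)
    rw [show 2 * (A / 2) = A by ring] at this
    linarith
  rw [h3] at h2
  have h4 : a * b ≤ (r + a) * (r + b) * sin (A / 2) ^ 2 := by nlinarith
  apply (pow_le_pow_iff_left₀ (mul_pos (sq_pos hr ha) (sq_pos hr hb)).le (abs_nonneg _)
    two_ne_zero).1
  rw [mul_pow, sq_sq hr ha, sq_sq hr hb, sq_abs, div_mul_div_comm, div_le_iff₀ (by positivity)]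
  linarith

theorem step2 {r a b c A B : ℝ} (hr : 0 < r) (hb : 0 < b) {x y w : ℂ}
    (h1 : y = (((r + b) / (r + a) : ℝ) : ℂ) * Complex.exp (A * Complex.I) * x)
    (h2 : w = (((r + c) / (r + b) : ℝ) : ℂ) * Complex.exp (B * Complex.I) * y) :
    w = (((r + c) / (r + a) : ℝ) : ℂ) * Complex.exp (((A + B : ℝ) : ℂ) * Complex.I) * x := by
  rw [h2, h1]
  have hb' : ((r : ℂ) + b) ≠ 0 := by
    rw [← Complex.ofReal_add, Ne, Complex.ofReal_eq_zero]; positivity
  rw [show ((A + B : ℝ) : ℂ) * Complex.I = A * Complex.I + B * Complex.I by push_cast; ring,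
    Complex.exp_add]
  push_cast
  field_simp

theorem dir_add_two (k : ZMod 6) : dir k + dir (k + 2) = dir (k + 1) := by
  revert k; decide

theorem dir_add_four (k : ZMod 6) : dir k + dir (k + 4) = dir (k + 5) := by
  revert k; decide

theorem dir_ne (k l : ZMod 6) (h : k ≠ l) : dir k ≠ dir l := by
  revert k l; decide

theorem dir_ne_zero (k : ZMod 6) : dir k ≠ 0 := by
  revert k; decide

theorem six_add (k : ZMod 6) : k + 5 + 1 = k := by
  revert k; decide

/-- **Ring lemma**: in a locally univalent packing of the hexagonal complex, the ratio of the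
radii of adjacent circles is bounded. -/
theorem ring_lemma {R : ℤ × ℤ → ℝ} {z : ℤ × ℤ → ℂ} (hp : IsCirclePacking R z)
    (hu : IsLocallyUnivalent R z) (v : ℤ × ℤ) (k : ZMod 6) :
    R v ≤ 59049 * R (v + dir k) := by
  obtain ⟨⟨hpos, hang⟩, htan, hor⟩ := hp
  set r := R v with hr
  set ρ : ZMod 6 → ℝ := fun k => R (v + dir k) with hρ
  set D : ZMod 6 → ℂ := fun k => z (v + dir k) - z v with hD
  have r0 : 0 < r := hpos v
  have ρ0 : ∀ k, 0 < ρ k := fun k => hpos _
  have nD : ∀ k, ‖D k‖ = r + ρ k := by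
    intro k
    simp only [hD, hρ]
    rw [← dist_eq_norm, dist_comm, htan v k]
  have tD : ∀ k, ‖D k - D (k + 1)‖ = ρ k + ρ (k + 1) := by
    intro k
    simp only [hD, hρ]
    rw [sub_sub_sub_cancel_right, ← dist_eq_norm]
    have := htan (v + dir k) (k + 2)
    rw [add_assoc, dir_add_two] at this
    exact this
  set α : ZMod 6 → ℝ := fun k => ang r (ρ k) (ρ (k + 1)) with hα
  have sD : ∀ k, D (k + 1) = (((r + ρ (k + 1)) / (r + ρ k) : ℝ) : ℂ) *
      Complex.exp (α k * Complex.I) * D k := fun k =>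
    step r0 (ρ0 k) (ρ0 (k + 1)) (nD k) (nD (k + 1)) (tD k) (hor v k)
  have s2 : ∀ k, D (k + 2) = (((r + ρ (k + 2)) / (r + ρ k) : ℝ) : ℂ) *
      Complex.exp (((α k + α (k + 1) : ℝ) : ℂ) * Complex.I) * D k := fun k => by
    have h := sD (k + 1)
    rw [show k + 1 + 1 = k + 2 by ring] at h
    exact step2 r0 (ρ0 (k + 1)) (sD k) h
  have s3 : ∀ k, D (k + 3) = (((r + ρ (k + 3)) / (r + ρ k) : ℝ) : ℂ) *
      Complex.exp (((α k + α (k + 1) + α (k + 2) : ℝ) : ℂ) * Complex.I) * D k := fun k => by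
    have h := sD (k + 2)
    rw [show k + 2 + 1 = k + 3 by ring] at h
    exact step2 r0 (ρ0 (k + 2)) (s2 k) h
  have s4 : ∀ k, D (k + 4) = (((r + ρ (k + 4)) / (r + ρ k) : ℝ) : ℂ) *
      Complex.exp (((α k + α (k + 1) + α (k + 2) + α (k + 3) : ℝ) : ℂ) * Complex.I) * D k :=
    fun k => by
    have h := sD (k + 3)
    rw [show k + 3 + 1 = k + 4 by ring] at h
    exact step2 r0 (ρ0 (k + 3)) (s3 k) h
  have dj : ∀ k l, k ≠ l → ρ k + ρ l ≤ ‖D k - D l‖ := by
    intro k l hkl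
    have h := hu v (v + dir k) (Or.inr ⟨k, rfl⟩) (v + dir l) (Or.inr ⟨l, rfl⟩)
      (fun h => dir_ne k l hkl (add_left_cancel h))
    rw [disjoint_ball_ball_iff (hpos _) (hpos _), dist_eq_norm] at h
    simp only [hD, hρ]
    rw [sub_sub_sub_cancel_right]
    exact h
  have c2 : ∀ k, sq r (ρ k) * sq r (ρ (k + 2)) ≤ |sin ((α k + α (k + 1)) / 2)| := fun k =>
    chord r0 (ρ0 _) (ρ0 _) (nD k) (s2 k) (dj _ _ (by revert k; decide))
  have c3 : ∀ k, sq r (ρ k) * sq r (ρ (k + 3)) ≤ |sin ((α k + α (k + 1) + α (k + 2)) / 2)| :=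
    fun k => chord r0 (ρ0 _) (ρ0 _) (nD k) (s3 k) (dj _ _ (by revert k; decide))
  have c4 : ∀ k, sq r (ρ k) * sq r (ρ (k + 4)) ≤
      |sin ((α k + α (k + 1) + α (k + 2) + α (k + 3)) / 2)| :=
    fun k => chord r0 (ρ0 _) (ρ0 _) (nD k) (s4 k) (dj _ _ (by revert k; decide))
  have htot : ∑ k, α k / 2 = π := by
    rw [← Finset.sum_div]
    have : ∑ k, α k = 2 * π := hang v
    rw [this]; ring
  have hs : ∀ k, ∑ j, α j / 2 = α k / 2 + α (k + 1) / 2 + α (k + 2) / 2 + α (k + 3) / 2 +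
      α (k + 4) / 2 + α (k + 5) / 2 := by
    intro k
    rw [← Equiv.sum_comp (Equiv.addLeft k) (fun j => α j / 2), sum_six]
    simp only [Equiv.coe_addLeft, add_zero]
    ring
  have hfin := ring_abs (fun k => sq r (ρ k)) (fun k => α k / 2)
    (fun k => sq_pos r0 (ρ0 k)) (fun k => sq_le_one r0 (ρ0 k))
    (fun k => by have := ang_nonneg r (ρ k) (ρ (k + 1)); simp only [hα]; linarith)
    (fun k => by have := ang_le r (ρ k) (ρ (k + 1)); simp only [hα]; linarith)
    htot (fun k => sin_half_ang r0 (ρ0 _) (ρ0 _))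
    (fun k => by have := c2 k; rwa [show (α k + α (k + 1)) / 2 = α k / 2 + α (k + 1) / 2 by ring]
      at this)
    (fun k => by
      have := c3 k
      rwa [show (α k + α (k + 1) + α (k + 2)) / 2 =
        α k / 2 + α (k + 1) / 2 + α (k + 2) / 2 by ring] at this)
    (fun k => by
      have := c4 k
      rwa [show (α k + α (k + 1) + α (k + 2) + α (k + 3)) / 2 =
        α k / 2 + α (k + 1) / 2 + α (k + 2) / 2 + α (k + 3) / 2 by ring] at this)
    (fun k => by
      have h1 := hs k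
      rw [htot] at h1
      have h2 : α k / 2 + α (k + 1) / 2 + α (k + 2) / 2 + α (k + 3) / 2 + α (k + 4) / 2 =
        π - α (k + 5) / 2 := by linarith
      have h3 : sin (α (k + 5) / 2) = sq r (ρ (k + 5)) * sq r (ρ (k + 5 + 1)) :=
        sin_half_ang r0 (ρ0 _) (ρ0 _)
      have h4 : k + 5 + 1 = k := six_add k
      rw [h2, Real.sin_pi_sub, h3, h4, mul_comm]
      exact le_abs_self _)
    k
  have h1 : (1 / 243 : ℝ) ^ 2 ≤ sq r (ρ k) ^ 2 := pow_le_pow_left₀ (by norm_num) hfin 2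
  rw [sq_sq r0 (ρ0 k), le_div_iff₀ (by have := ρ0 k; positivity)] at h1
  have h2 := ρ0 k
  change r ≤ 59049 * ρ k
  linarith

end Pool.Agent.TH633.Doyle
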